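import Pool.Agent.H34.TAM.Stmts3

/-!
Board per, row MUD: the free difference quotient is bounded from the norm with the radius `4 r` to the
norm of the tensor square with the radius `r`.
-/

set_option autoImplicit false

noncomputable section

open scoped TensorProduct

namespace Pool.PER

open Pool.CGR Pool.CGS Pool.TAM Pool.AUT MulOpposite

namespace H18

variable {m : ℕ}

theorem nu_zero {r : ℝ} {ν : Te m → ℝ} (h : IsNu r ν) : ν 0 ≤ 0 := by
  have h1 := h.smul 0 0
  rw [zero_smul, norm_zero, zero_mul] at h1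
  exact h1

theorem tone : ((1 : Fr m) ⊗ₜ[ℂ] (1 : (Fr m)ᵐᵒᵖ)) = 1 := rfl

theorem d_one {D : Fin m → (Fr m →ₗ[ℂ] Te m)} (hD : IsPd D) (k : Fin m) : D k 1 = 0 := by
  have h1 := hD.mul k 1 1
  rw [mul_one, op_one, tone, one_mul] at h1
  exact left_eq_add.mp h1

theorem wd_nil : wd ([] : List (Fin m)) = 1 := rfl

theorem wd_cons (j : Fin m) (v : List (Fin m)) : wd (j :: v) = io j * wd v := by
  simp [wd]

theorem wd_snoc (p : List (Fin m)) (j : Fin m) : wd (p ++ [j]) = wd p * io j := by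
  simp [wd]

theorem word {r : ℝ} {ν : Te m → ℝ} {D : Fin m → (Fr m →ₗ[ℂ] Te m)} (hr : 1 ≤ r)
    (hν : IsNu r ν) (hD : IsPd D) (k : Fin m) (u : List (Fin m)) : ∀ p : List (Fin m),
      ν ((wd p ⊗ₜ[ℂ] (1 : (Fr m)ᵐᵒᵖ)) * D k (wd u)) ≤
        (u.length : ℝ) * ((p.length : ℝ) + u.length) * r ^ (p.length + u.length) := by
  induction u with
  | nil =>
    intro p
    rw [wd_nil, d_one hD, mul_zero, List.length_nil, Nat.cast_zero, zero_mul, zero_mul]
    exact nu_zero hν
  | cons j v ih =>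
    intro p
    have e1 : (wd p ⊗ₜ[ℂ] (1 : (Fr m)ᵐᵒᵖ)) * D k (wd (j :: v)) =
        (wd (p ++ [j]) ⊗ₜ[ℂ] (1 : (Fr m)ᵐᵒᵖ)) * D k (wd v) +
          (wd p ⊗ₜ[ℂ] op (wd v)) * D k (io j) := by
      rw [wd_cons, hD.mul, mul_add, ← mul_assoc, ← mul_assoc, Algebra.TensorProduct.tmul_mul_tmul,
        Algebra.TensorProduct.tmul_mul_tmul, wd_snoc, one_mul, one_mul, mul_one]
    have h1 := ih (p ++ [j])
    rw [List.length_append, List.length_singleton] at h1
    have h2 : ν ((wd p ⊗ₜ[ℂ] op (wd v)) * D k (io j)) ≤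
        (1 + (p.length : ℝ) + v.length) * r ^ (p.length + v.length) := by
      rw [hD.gen]
      by_cases h : j = k
      · rw [if_pos h, mul_one]
        exact hν.gen p v
      · rw [if_neg h, mul_zero]
        exact (nu_zero hν).trans (by positivity)
    have h3 : (1 + (p.length : ℝ) + v.length) * r ^ (p.length + v.length) ≤
        (1 + (p.length : ℝ) + v.length) * r ^ (p.length + (v.length + 1)) :=
      mul_le_mul_of_nonneg_left (pow_le_pow_right₀ hr (by omega)) (by positivity)
    have h4 := hν.add ((wd (p ++ [j]) ⊗ₜ[ℂ] (1 : (Fr m)ᵐᵒᵖ)) * D k (wd v))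
      ((wd p ⊗ₜ[ℂ] op (wd v)) * D k (io j))
    rw [← e1] at h4
    rw [List.length_cons]
    have e2 : p.length + 1 + v.length = p.length + (v.length + 1) := by omega
    rw [e2] at h1
    push_cast at h1 ⊢
    linarith only [h1, h2, h3, h4]

theorem sq_le (n : ℕ) : (n : ℝ) * n ≤ 4 ^ n := by
  have h1 : n ≤ 2 ^ n := Nat.lt_two_pow_self.le
  have h2 : n * n ≤ 2 ^ n * 2 ^ n := Nat.mul_le_mul h1 h1
  have h3 : 2 ^ n * 2 ^ n = 4 ^ n := by
    rw [← mul_pow]
    norm_num
  rw [h3] at h2
  exact_mod_cast h2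

end H18

open H18 in
theorem mud_thm : MUDStmt := by
  intro m r μ ν D hr hμ hν hD k q
  have h := hμ.max (fun q => ν (D k q)) 1 zero_le_one
    (fun q q' => by
      show ν (D k (q + q')) ≤ _
      rw [map_add]
      exact hν.add _ _)
    (fun c q => by
      show ν (D k (c • q)) ≤ _
      rw [map_smul]
      exact hν.smul _ _)
    (fun u => by
      show ν (D k (wd u)) ≤ _
      have h1 := word hr hν hD k u []
      rw [wd_nil, tone, one_mul, List.length_nil, Nat.cast_zero, zero_add, zero_add] at h1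
      have h2 := mul_le_mul_of_nonneg_right (sq_le u.length)
        (pow_nonneg (zero_le_one.trans hr) u.length)
      rw [one_mul, mul_pow]
      exact h1.trans h2) q
  rw [one_mul] at h
  exact h

end Pool.PER
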